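import Pool.Agent.NKM.Gam
import Pool.Agent.Helper107.LC.MDefs

set_option autoImplicit false
set_option linter.unusedSectionVars false
open scoped Manifold ContDiff Topology
open Set Real

/-!
A cocompact lattice of the Lie group Sol acting on `ℝ³` with coordinates `(x, y, t)`.
-/

namespace Pool.Agent.H890R2.Sol

open Pool.Agent.NKM (gr gc gr_sq gc_sq gr_add_gc gr_mul_gc one_lt_gr gr_lt_two gc_neg e1 e2
  e1_apply e2_apply gr_pos gr_ne gc_ne e1_injective e2_injective)
open Pool.Agent.Helper107.LC (R)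

/-- the translation length `log φ²` -/
noncomputable def tau : ℝ := Real.log (gr ^ 2)

lemma tau_pos : 0 < tau := Real.log_pos (one_lt_pow₀ one_lt_gr (by norm_num))

lemma exp_tau : Real.exp tau = gr ^ 2 := Real.exp_log (pow_pos gr_pos 2)

lemma exp_neg_tau : Real.exp (-tau) = gc ^ 2 := by
  rw [Real.exp_neg, exp_tau]
  have h := gr_mul_gc
  have h2 : gr ^ 2 * gc ^ 2 = 1 := by
    rw [← mul_pow, h]; norm_num
  exact (eq_inv_of_mul_eq_one_right h2).symm

/-- multiplication by `φ² = 1 + φ` on `ℤ[φ]`, with the pair `(a,b)` standing for `a + bφ` -/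
def Psi : AddAut (ℤ × ℤ) where
  toFun n := (n.1 + n.2, n.1 + 2 * n.2)
  invFun n := (2 * n.1 - n.2, n.2 - n.1)
  left_inv n := by ext <;> simp <;> ring
  right_inv n := by ext <;> simp <;> ring
  map_add' n m := by ext <;> simp <;> ring

@[simp] lemma Psi_apply (n : ℤ × ℤ) : Psi n = (n.1 + n.2, n.1 + 2 * n.2) := rfl

lemma e1_Psi (n : ℤ × ℤ) : e1 (Psi n) = Real.exp tau * e1 n := by
  have h := gr_sq
  rw [exp_tau]
  simp only [e1_apply, Psi_apply]
  push_cast
  linear_combination (-(n.1 : ℝ) - (n.2 : ℝ) * gr - (n.2 : ℝ)) * h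

lemma e2_Psi (n : ℤ × ℤ) : e2 (Psi n) = Real.exp (-tau) * e2 n := by
  have h := gc_sq
  rw [exp_neg_tau]
  simp only [e2_apply, Psi_apply]
  push_cast
  linear_combination (-(n.1 : ℝ) - (n.2 : ℝ) * gc - (n.2 : ℝ)) * h

lemma e1_zsmul (m : ℤ) (n : ℤ × ℤ) :
    e1 ((m • Psi : AddAut (ℤ × ℤ)) n) = Real.exp (m * tau) * e1 n := by
  induction m using Int.induction_on generalizing n with
  | zero => simp
  | succ k ih =>
    rw [add_zsmul, one_zsmul, AddAut.add_apply, ih, e1_Psi]
    push_cast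
    rw [add_mul, one_mul, Real.exp_add]; ring
  | pred k ih =>
    rw [sub_zsmul, one_zsmul, AddAut.add_apply, ih]
    have h := e1_Psi ((-Psi : AddAut (ℤ × ℤ)) n)
    rw [AddAut.apply_neg_self] at h
    rw [h]
    push_cast
    rw [← mul_assoc, ← Real.exp_add]
    ring_nf

lemma e2_zsmul (m : ℤ) (n : ℤ × ℤ) :
    e2 ((m • Psi : AddAut (ℤ × ℤ)) n) = Real.exp (-(m * tau)) * e2 n := by
  induction m using Int.induction_on generalizing n with
  | zero => simp
  | succ k ih =>
    rw [add_zsmul, one_zsmul, AddAut.add_apply, ih, e2_Psi]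
    push_cast
    rw [← mul_assoc, ← Real.exp_add]
    ring_nf
  | pred k ih =>
    rw [sub_zsmul, one_zsmul, AddAut.add_apply, ih]
    have h := e2_Psi ((-Psi : AddAut (ℤ × ℤ)) n)
    rw [AddAut.apply_neg_self] at h
    rw [h]
    push_cast
    rw [← mul_assoc, ← Real.exp_add]
    ring_nf

/-- The lattice `ℤ[φ] ⋊ ℤ`. -/
@[ext] structure Gam where
  /-- lattice translation -/
  n : ℤ × ℤ
  /-- suspension coordinate -/
  m : ℤ

namespace Gam

instance : Mul Gam := ⟨fun g h => ⟨g.n + (g.m • Psi : AddAut (ℤ × ℤ)) h.n, g.m + h.m⟩⟩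
instance : One Gam := ⟨⟨0, 0⟩⟩
instance : Inv Gam := ⟨fun g => ⟨-((-g.m) • Psi : AddAut (ℤ × ℤ)) g.n, -g.m⟩⟩

@[simp] lemma mul_n (g h : Gam) : (g * h).n = g.n + (g.m • Psi : AddAut (ℤ × ℤ)) h.n := rfl
@[simp] lemma mul_m (g h : Gam) : (g * h).m = g.m + h.m := rfl
@[simp] lemma one_n : (1 : Gam).n = 0 := rfl
@[simp] lemma one_m : (1 : Gam).m = 0 := rfl
@[simp] lemma inv_n (g : Gam) : (g⁻¹).n = -((-g.m) • Psi : AddAut (ℤ × ℤ)) g.n := rfl
@[simp] lemma inv_m (g : Gam) : (g⁻¹).m = -g.m := rfl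

instance : Group Gam := Group.ofLeftAxioms
  (by
    intro g h l
    ext1
    · simp [add_zsmul, AddAut.add_apply, map_add, add_assoc]
    · simp [add_assoc])
  (by
    intro g
    ext1 <;> simp)
  (by
    intro g
    ext1
    · simp
    · simp)

end Gam

lemma R_ext {p q : R 2} (h0 : p 0 = q 0) (h1 : p 1 = q 1) (h2 : p 2 = q 2) : p = q := by
  ext i
  fin_cases i
  · exact h0
  · exact h1
  · exact h2

/-- the linear part `(x, y, t) ↦ (eᵃ x, e⁻ᵃ y, t)` of the action -/
noncomputable def lin (a : ℝ) : R 2 →L[ℝ] R 2 :=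
  (EuclideanSpace.equiv (Fin 3) ℝ).symm.toContinuousLinearMap.comp
    ((ContinuousLinearMap.pi ![(Real.exp a) • ContinuousLinearMap.proj 0,
      (Real.exp (-a)) • ContinuousLinearMap.proj 1, ContinuousLinearMap.proj 2]).comp
      (EuclideanSpace.equiv (Fin 3) ℝ).toContinuousLinearMap)

@[simp] lemma lin_0 (a : ℝ) (v : R 2) : lin a v 0 = Real.exp a * v 0 := by simp [lin]
@[simp] lemma lin_1 (a : ℝ) (v : R 2) : lin a v 1 = Real.exp (-a) * v 1 := by simp [lin]
@[simp] lemma lin_2 (a : ℝ) (v : R 2) : lin a v 2 = v 2 := by simp [lin]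

/-- the translation part of the action -/
noncomputable def tr (g : Gam) : R 2 := (EuclideanSpace.equiv (Fin 3) ℝ).symm ![e1 g.n, e2 g.n, g.m * tau]

@[simp] lemma tr_0 (g : Gam) : tr g 0 = e1 g.n := by simp [tr]
@[simp] lemma tr_1 (g : Gam) : tr g 1 = e2 g.n := by simp [tr]
@[simp] lemma tr_2 (g : Gam) : tr g 2 = g.m * tau := by simp [tr]

/-- the action on the model space, as a function:
`(x, y, t) ↦ (e^{mτ} x + e₁ n, e^{-mτ} y + e₂ n, t + mτ)` -/
noncomputable def act (g : Gam) (p : R 2) : R 2 := lin (g.m * tau) p + tr g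

lemma act_0 (g : Gam) (p : R 2) : act g p 0 = Real.exp (g.m * tau) * p 0 + e1 g.n := by
  simp [act]
lemma act_1 (g : Gam) (p : R 2) : act g p 1 = Real.exp (-(g.m * tau)) * p 1 + e2 g.n := by
  simp [act]
lemma act_2 (g : Gam) (p : R 2) : act g p 2 = p 2 + g.m * tau := by
  simp [act]

noncomputable instance : MulAction Gam (R 2) where
  smul := act
  one_smul p := by
    change act 1 p = p
    apply R_ext
    · rw [act_0]; simp
    · rw [act_1]; simp
    · rw [act_2]; simp
  mul_smul g h p := by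
    change act (g * h) p = act g (act h p)
    apply R_ext
    · rw [act_0, act_0, act_0, Gam.mul_n, Gam.mul_m, map_add, e1_zsmul]
      push_cast
      rw [add_mul, Real.exp_add]; ring
    · rw [act_1, act_1, act_1, Gam.mul_n, Gam.mul_m, map_add, e2_zsmul]
      push_cast
      rw [add_mul, neg_add, Real.exp_add]; ring
    · rw [act_2, act_2, act_2, Gam.mul_m]
      push_cast
      ring

lemma smul_def (g : Gam) (p : R 2) : g • p = lin (g.m * tau) p + tr g := rfl

lemma smul_0 (g : Gam) (p : R 2) : (g • p) 0 = Real.exp (g.m * tau) * p 0 + e1 g.n := act_0 g p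
lemma smul_1 (g : Gam) (p : R 2) : (g • p) 1 = Real.exp (-(g.m * tau)) * p 1 + e2 g.n := act_1 g p
lemma smul_2 (g : Gam) (p : R 2) : (g • p) 2 = p 2 + g.m * tau := act_2 g p

lemma contDiff_smul (g : Gam) : ContDiff ℝ ∞ (fun p : R 2 => g • p) := by
  have : (fun p : R 2 => g • p) = fun p => lin (g.m * tau) p + tr g := rfl
  rw [this]
  exact (lin _).contDiff.add contDiff_const

lemma hasFDerivAt_smul (g : Gam) (p : R 2) :
    HasFDerivAt (fun p : R 2 => g • p) (lin (g.m * tau)) p :=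
  (lin (g.m * tau)).hasFDerivAt.add_const _

instance : ContinuousConstSMul Gam (R 2) := ⟨fun g => (contDiff_smul g).continuous⟩

instance : IsCancelSMul Gam (R 2) where
  left_cancel' g p p' h := by
    have := congrArg (fun x => g⁻¹ • x) h
    simpa using this
  right_cancel' g h p hgh := by
    have h0 := congrArg (fun x : R 2 => x 0) hgh
    have h2 := congrArg (fun x : R 2 => x 2) hgh
    simp only [smul_0, smul_2] at h0 h2
    have hl := tau_pos
    have hm : g.m = h.m := by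
      have h3 : (g.m : ℝ) * tau = h.m * tau := by linarith
      exact_mod_cast mul_right_cancel₀ hl.ne' h3
    have hn : g.n = h.n := by
      rw [hm] at h0
      apply e1_injective
      exact add_left_cancel h0
    ext1
    · exact hn
    · exact hm

lemma int_mem_Icc {k : ℤ} {A : ℝ} (h : |(k : ℝ)| ≤ A) : k ∈ Set.Icc (-⌈A⌉) ⌈A⌉ := by
  have h' := abs_le.1 h
  have hc := Int.le_ceil A
  constructor
  · have : (-(⌈A⌉ : ℝ)) ≤ k := by linarith
    exact_mod_cast this
  · have : (k : ℝ) ≤ ⌈A⌉ := by linarith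
    exact_mod_cast this

lemma finite_lattice (A : ℝ) : Set.Finite {n : ℤ × ℤ | |e1 n| ≤ A ∧ |e2 n| ≤ A} := by
  apply Set.Finite.subset (s := (Set.Icc (-⌈3 * A⌉) ⌈3 * A⌉) ×ˢ (Set.Icc (-⌈A⌉) ⌈A⌉))
  · exact (Set.finite_Icc _ _).prod (Set.finite_Icc _ _)
  · rintro ⟨a, b⟩ ⟨h1, h2⟩
    simp only [e1_apply, e2_apply] at h1 h2
    have h5 : gr - gc = √5 := Real.goldenRatio_sub_goldenConj
    have h52 : (2 : ℝ) ≤ √5 := by
      rw [show (2 : ℝ) = √4 by rw [show (4 : ℝ) = 2 ^ 2 by norm_num]; simp]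
      exact Real.sqrt_le_sqrt (by norm_num)
    have hA : 0 ≤ A := (abs_nonneg _).trans h1
    have hb : |(b : ℝ)| ≤ A := by
      have : |(b : ℝ)| * √5 ≤ 2 * A := by
        have h3 : (b : ℝ) * √5 = ((a : ℝ) + b * gr) - (a + b * gc) := by rw [← h5]; ring
        rw [← abs_of_pos (show (0 : ℝ) < √5 by positivity), ← abs_mul, h3]
        calc _ ≤ |(a : ℝ) + b * gr| + |(a : ℝ) + b * gc| := abs_sub _ _
          _ ≤ _ := by linarith
      nlinarith [abs_nonneg (b : ℝ)]
    have hg2 : gr < 2 := gr_lt_two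
    have ha : |(a : ℝ)| ≤ 3 * A := by
      have h3 : (a : ℝ) = ((a : ℝ) + b * gr) - b * gr := by ring
      calc |(a : ℝ)| = |((a : ℝ) + b * gr) - b * gr| := by rw [← h3]
        _ ≤ |(a : ℝ) + b * gr| + |b * gr| := abs_sub _ _
        _ ≤ A + A * 2 := by
          rw [abs_mul, abs_of_pos gr_pos]
          have hgp := gr_pos
          gcongr
        _ = 3 * A := by ring
    exact ⟨int_mem_Icc ha, int_mem_Icc hb⟩

/-- only finitely many deck transformations move a bounded set near a bounded set -/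
lemma finite_return (C : ℝ) : Set.Finite {g : Gam | ∃ p : R 2, (∀ i, |p i| ≤ C) ∧
    (∀ i, |(g • p) i| ≤ C)} := by
  have hl := tau_pos
  apply Set.Finite.subset (s := ⋃ m ∈ Set.Icc (-⌈2 * C / tau⌉) ⌈2 * C / tau⌉,
    (fun x : ℤ × ℤ => (⟨x, m⟩ : Gam)) ''
      {n : ℤ × ℤ | |e1 n| ≤ C + Real.exp (m * tau) * C + Real.exp (-(m * tau)) * C ∧
        |e2 n| ≤ C + Real.exp (m * tau) * C + Real.exp (-(m * tau)) * C})
  · apply (Set.finite_Icc _ _).biUnion
    intro m _
    exact (finite_lattice _).image _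
  · rintro g ⟨p, kp, lp⟩
    have h0 := smul_0 g p
    have h1 := smul_1 g p
    have h2 := smul_2 g p
    have k0 := kp 0
    have k1 := kp 1
    have k2 := kp 2
    have l0 := lp 0
    have l1 := lp 1
    have l2 := lp 2
    have hC0 : 0 ≤ C := (abs_nonneg _).trans k0
    have hm : |(g.m : ℝ)| ≤ 2 * C / tau := by
      rw [le_div_iff₀ hl]
      calc |(g.m : ℝ)| * tau = |g.m * tau| := by
            rw [abs_mul, abs_of_pos hl]
        _ = |(g • p) 2 - p 2| := by rw [h2]; ring_nf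
        _ ≤ |(g • p) 2| + |p 2| := abs_sub _ _
        _ ≤ 2 * C := by linarith
    have hn1 : |e1 g.n| ≤ C + Real.exp (g.m * tau) * C + Real.exp (-(g.m * tau)) * C := by
      calc |e1 g.n| = |(g • p) 0 - Real.exp (g.m * tau) * p 0| := by rw [h0]; ring_nf
        _ ≤ |(g • p) 0| + |Real.exp (g.m * tau) * p 0| := abs_sub _ _
        _ = |(g • p) 0| + Real.exp (g.m * tau) * |p 0| := by
          rw [abs_mul, abs_of_pos (Real.exp_pos _)]
        _ ≤ C + Real.exp (g.m * tau) * C := by gcongr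
        _ ≤ _ := by
          have : 0 ≤ Real.exp (-(g.m * tau)) * C := by positivity
          linarith
    have hn2 : |e2 g.n| ≤ C + Real.exp (g.m * tau) * C + Real.exp (-(g.m * tau)) * C := by
      calc |e2 g.n| = |(g • p) 1 - Real.exp (-(g.m * tau)) * p 1| := by rw [h1]; ring_nf
        _ ≤ |(g • p) 1| + |Real.exp (-(g.m * tau)) * p 1| := abs_sub _ _
        _ = |(g • p) 1| + Real.exp (-(g.m * tau)) * |p 1| := by
          rw [abs_mul, abs_of_pos (Real.exp_pos _)]
        _ ≤ C + Real.exp (-(g.m * tau)) * C := by gcongr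
        _ ≤ _ := by
          have : 0 ≤ Real.exp (g.m * tau) * C := by positivity
          linarith
    rw [Set.mem_iUnion₂]
    exact ⟨g.m, int_mem_Icc hm, g.n, ⟨hn1, hn2⟩, rfl⟩

instance : ProperlyDiscontinuousSMul Gam (R 2) where
  finite_disjoint_inter_image := by
    intro K L hK hL
    obtain ⟨C1, hC1⟩ := hK.isBounded.exists_norm_le
    obtain ⟨C2, hC2⟩ := hL.isBounded.exists_norm_le
    set C := max C1 C2 with hC
    apply (finite_return C).subset
    rintro g ⟨p', ⟨p, hp, hgp⟩, hp'⟩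
    have hgp' : g • p = p' := hgp
    refine ⟨p, fun i => (PiLp.norm_apply_le p i).trans ((hC1 p hp).trans (le_max_left _ _)),
      fun i => ?_⟩
    rw [hgp']
    exact (PiLp.norm_apply_le p' i).trans ((hC2 p' hp').trans (le_max_right _ _))

end Pool.Agent.H890R2.Sol
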