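import Pool.Agent.H890R2.Sol.Mfd

set_option autoImplicit false
set_option linter.unusedSectionVars false
open scoped Manifold ContDiff Topology
open Set Real Filter

/-!
Every periodic geodesic of the closed Lorentzian Sol-manifold is constant.
-/

namespace Pool.Agent.H890R2.Sol

open Pool.Agent.NKM (gr gc gr_sq gc_sq gr_add_gc gr_mul_gc one_lt_gr gr_lt_two gc_neg e1 e2
  e1_apply e2_apply gr_pos gr_ne gc_ne e1_injective e2_injective)
open Pool.Agent.Helper107.LC

/-- derivative of the metric coefficients -/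
lemma DR_g0 (v w y a : R 2) : DR (fun z => g0 z v w) y a =
    a 2 * (-(Real.exp (-(y 2)) * (v 0 * w 2 + v 2 * w 0)) +
      2 * (Real.exp (2 * y 2) * (v 1 * w 1))) := by
  unfold DR g0
  have h0 : HasDerivAt (fun s : ℝ => (y + s • a) 2) (a 2) 0 := by
    have : (fun s : ℝ => (y + s • a) 2) = fun s : ℝ => y 2 + s * a 2 := by
      funext s; simp
    rw [this]
    simpa using ((hasDerivAt_id (0 : ℝ)).mul_const (a 2)).const_add (y 2)
  have e0 : (y + (0 : ℝ) • a) 2 = y 2 := by simp
  have h1 := (h0.neg.exp).mul_const (v 0 * w 2 + v 2 * w 0)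
  have h2 := ((h0.const_mul 2).exp).mul_const (v 1 * w 1)
  have h3 := h1.add h2
  simp only [Pi.neg_apply] at h3
  rw [e0] at h3
  have h4 : deriv (fun s : ℝ => Real.exp (-((y + s • a) 2)) * (v 0 * w 2 + v 2 * w 0) +
      Real.exp (2 * (y + s • a) 2) * (v 1 * w 1)) 0 = _ := h3.deriv
  rw [h4]
  ring

/-- the three geodesic equations -/
lemma geod_eqs {y v a : R 2} (h : GeodEq g0 y v a) :
    a 0 = Real.exp (3 * y 2) * v 1 ^ 2 ∧ a 1 = -2 * v 2 * v 1 ∧ a 2 = v 2 ^ 2 := by
  have hx := h ((EuclideanSpace.equiv (Fin 3) ℝ).symm ![1, 0, 0])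
  have hy := h ((EuclideanSpace.equiv (Fin 3) ℝ).symm ![0, 1, 0])
  have ht := h ((EuclideanSpace.equiv (Fin 3) ℝ).symm ![0, 0, 1])
  rw [DR_g0, DR_g0] at hx hy ht
  simp [g0] at hx hy ht
  have p1 := Real.exp_pos (-(y 2))
  have p2 := Real.exp_pos (2 * y 2)
  have hm : Real.exp (3 * y 2) * Real.exp (-(y 2)) = Real.exp (2 * y 2) := by
    rw [← Real.exp_add]; ring_nf
  refine ⟨?_, ?_, ?_⟩
  · apply mul_left_cancel₀ p1.ne'
    linear_combination ht - (v 1 ^ 2) * hm
  · apply mul_left_cancel₀ p2.ne'
    linear_combination hy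
  · apply mul_left_cancel₀ p1.ne'
    linear_combination hx

/-- a periodic function with nonnegative derivative is constant -/
lemma periodic_mono {f f' : ℝ → ℝ} {L : ℝ} (hL : 0 < L) (hf : ∀ s, HasDerivAt f (f' s) s)
    (h0 : ∀ s, 0 ≤ f' s) (hp : ∀ s, f (s + L) = f s) : ∀ s, f' s = 0 := by
  have hmono : Monotone f := by
    apply monotone_of_deriv_nonneg (fun s => (hf s).differentiableAt)
    intro s
    rw [(hf s).deriv]
    exact h0 s
  have hpn : ∀ (n : ℕ) s, f (s + n * L) = f s := by
    intro n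
    induction n with
    | zero => intro s; simp
    | succ k ih =>
      intro s
      have : s + ((k + 1 : ℕ) : ℝ) * L = (s + k * L) + L := by push_cast; ring
      rw [this, hp, ih]
  have hconst : ∀ x y, x ≤ y → f x = f y := by
    intro x y hxy
    obtain ⟨n, hn⟩ := exists_nat_ge ((y - x) / L)
    have h1 : y ≤ x + n * L := by
      rw [div_le_iff₀ hL] at hn
      linarith
    exact le_antisymm (hmono hxy) ((hmono h1).trans_eq (hpn n x))
  intro s
  have hc : f = fun _ => f 0 := by
    funext x
    rcases le_total x 0 with h | h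
    · exact hconst x 0 h
    · exact (hconst 0 x h).symm
  have h1 := hf s
  rw [hc] at h1
  exact h1.unique (hasDerivAt_const s (f 0))

/-- Every periodic geodesic of the closed Lorentzian manifold is constant. -/
theorem no_periodic (c : ℝ → SolM) (L : ℝ) (hL : 0 < L) (hc : ∀ s, c (s + L) = c s)
    (hg : solMetric.IsGeodesic c univ) : ∀ s s', c s = c s' := by
  obtain ⟨hcont, hgeo⟩ := hg
  rw [continuousOn_univ] at hcont
  -- lift
  obtain ⟨y0, hy0⟩ := pr_cov.surjective (c 0)
  obtain ⟨F, ⟨hF0, hF⟩, -⟩ := pr_cov.isCoveringMap.existsUnique_continuousMap_lifts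
    (⟨c, hcont⟩ : C(ℝ, SolM)) 0 y0 hy0
  have hFc : ∀ s, pr (F s) = c s := fun s => congrFun hF s
  -- the lift is a geodesic
  have hFg : ∀ t, ∃ a, HasDerivAt F (deriv F t) t ∧ HasDerivAt (deriv F) a t ∧
      GeodEq g0 (F t) (deriv F t) a := by
    intro t
    set e := pr_lh.localInverseAt (F t) with he
    have hsrc : c t ∈ e.source := by
      rw [← hFc]; exact pr_lh.apply_self_mem_localInverseAt_source
    obtain ⟨v, a, ⟨hd1, hd2⟩, hG⟩ := hgeo t (mem_univ t) e ⟨F t, rfl⟩ hsrc
    have hev : ∀ᶠ s in 𝓝 t, F s ∈ e.target :=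
      F.continuous.continuousAt.preimage_mem_nhds
        (e.open_target.mem_nhds pr_lh.self_mem_localInverseAt_target)
    have heq : ∀ᶠ s in 𝓝 t, (e ∘ c) s = F s := by
      filter_upwards [hev] with s hs
      rw [Function.comp_apply, ← hFc]
      have h := e.right_inv hs
      rwa [he, pr_lh.localInverseAt_symm, ← he] at h
    have hd1' : ∀ᶠ s in 𝓝 t, HasDerivAt F (v s) s := by
      filter_upwards [hd1, heq.eventually_nhds] with s h1 h2
      exact h1.congr_of_eventuallyEq (h2.mono fun _ h => h.symm)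
    have hdv : ∀ᶠ s in 𝓝 t, deriv F s = v s := hd1'.mono fun s h => h.deriv
    refine ⟨a, ?_, ?_, ?_⟩
    · rw [hdv.self_of_nhds]; exact hd1'.self_of_nhds
    · exact hd2.congr_of_eventuallyEq hdv
    · have h3 : e (c t) = F t := heq.self_of_nhds
      rw [hdv.self_of_nhds, ← h3]
      exact hG
  choose a ha1 ha2 ha3 using hFg
  have hcoord : ∀ (f : ℝ → R 2) (f' : R 2) (t : ℝ), HasDerivAt f f' t →
      ∀ i, HasDerivAt (fun s => f s i) (f' i) t := by
    intro f f' t h i
    exact (EuclideanSpace.proj i : R 2 →L[ℝ] ℝ).hasFDerivAt.comp_hasDerivAt t h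
  -- the deck transformation
  obtain ⟨g, hgL⟩ := pr_cov.apply_eq_iff_mem_orbit.mp
    (show pr (F L) = pr (F 0) by rw [hFc, hFc, ← hc 0, zero_add])
  have hdeck : ∀ s, F (s + L) = g • F s := by
    obtain ⟨F', -, huniq⟩ := pr_cov.isCoveringMap.existsUnique_continuousMap_lifts
      (⟨c, hcont⟩ : C(ℝ, SolM)) 0 (F L) (by
        show pr (F L) = c 0
        rw [hFc, ← hc 0, zero_add])
    have h1 := huniq ⟨fun s => F (s + L), by fun_prop⟩ ⟨by simp, by
      funext s
      show pr (F (s + L)) = c s
      rw [hFc, hc]⟩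
    have h2 := huniq ⟨fun s => g • F s, F.continuous.const_smul g⟩ ⟨hgL, by
      funext s
      show pr (g • F s) = c s
      rw [pr_cov.map_smul, hFc]⟩
    intro s
    have h3 := congrArg (fun f : C(ℝ, R 2) => f s) (h1.trans h2.symm)
    exact h3
  have hderiv : ∀ s, deriv F (s + L) = lin (g.m * tau) (deriv F s) := by
    intro s
    have h1 : HasDerivAt (fun s => F (s + L)) (deriv F (s + L)) s :=
      (ha1 (s + L)).comp_add_const s L
    have h2 : HasDerivAt (fun s => g • F s) (lin (g.m * tau) (deriv F s)) s :=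
      (hasFDerivAt_smul g (F s)).comp_hasDerivAt s (ha1 s)
    have h3 : (fun s => F (s + L)) = fun s => g • F s := funext hdeck
    rw [h3] at h1
    exact h1.unique h2
  -- the t-coordinate is constant
  have hV2 : ∀ s, deriv F s 2 = 0 := by
    have h := periodic_mono (f := fun s => deriv F s 2) (f' := fun s => a s 2) hL
      (fun s => hcoord _ _ _ (ha2 s) 2)
      (fun s => by
        have := (geod_eqs (ha3 s)).2.2
        show 0 ≤ a s 2
        rw [this]
        exact sq_nonneg _)
      (fun s => by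
        show deriv F (s + L) 2 = deriv F s 2
        rw [hderiv, lin_2])
    intro s
    have h1 : a s 2 = 0 := h s
    rw [(geod_eqs (ha3 s)).2.2] at h1
    exact pow_eq_zero_iff (by norm_num) |>.1 h1
  have hconst : ∀ (i : Fin 3), (∀ s, deriv F s i = 0) → ∀ s s', F s i = F s' i := by
    intro i hi s s'
    exact is_const_of_deriv_eq_zero (f := fun s => F s i)
      (fun s => (hcoord _ _ _ (ha1 s) i).differentiableAt)
      (fun s => by
        have := (hcoord _ _ _ (ha1 s) i).deriv
        rw [this, hi]) s s'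
  have hF2 := hconst 2 hV2
  have hm : g.m = 0 := by
    have h1 := congrArg (fun p : R 2 => p 2) (hdeck 0)
    simp only [smul_2] at h1
    rw [hF2 (0 + L) 0] at h1
    have h2 : (g.m : ℝ) * tau = 0 := by linarith
    rcases mul_eq_zero.1 h2 with h3 | h3
    · exact_mod_cast h3
    · exact absurd h3 tau_pos.ne'
  -- the y-coordinate is constant
  have hV1 : ∀ s, deriv F s 1 = 0 := by
    have h := periodic_mono (f := fun s => deriv F s 0) (f' := fun s => a s 0) hL
      (fun s => hcoord _ _ _ (ha2 s) 0)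
      (fun s => by
        have := (geod_eqs (ha3 s)).1
        show 0 ≤ a s 0
        rw [this]
        positivity)
      (fun s => by
        show deriv F (s + L) 0 = deriv F s 0
        rw [hderiv, lin_0, hm]
        simp)
    intro s
    have h1 : a s 0 = 0 := h s
    rw [(geod_eqs (ha3 s)).1] at h1
    rcases mul_eq_zero.1 h1 with h2 | h2
    · exact absurd h2 (Real.exp_pos _).ne'
    · exact pow_eq_zero_iff (by norm_num) |>.1 h2
  have hF1 := hconst 1 hV1
  have hn : g.n = 0 := by
    have h1 := congrArg (fun p : R 2 => p 1) (hdeck 0)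
    simp only [smul_1] at h1
    rw [hF1 (0 + L) 0, hm] at h1
    apply e2_injective
    rw [map_zero]
    simpa using h1
  -- the x-coordinate is constant
  have hV0 : ∀ s, deriv F s 0 = 0 := by
    have hA0 : ∀ s, a s 0 = 0 := by
      intro s
      rw [(geod_eqs (ha3 s)).1, hV1 s]
      simp
    have hk : ∀ s s', deriv F s 0 = deriv F s' 0 := by
      intro s s'
      exact is_const_of_deriv_eq_zero (f := fun s => deriv F s 0)
        (fun s => (hcoord _ _ _ (ha2 s) 0).differentiableAt)
        (fun s => by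
          have := (hcoord _ _ _ (ha2 s) 0).deriv
          rw [this, hA0]) s s'
    have hper : F L 0 = F 0 0 := by
      have h1 := congrArg (fun p : R 2 => p 0) (hdeck 0)
      simp only [smul_0] at h1
      rw [hm, hn] at h1
      simpa using h1
    -- mean value theorem
    obtain ⟨ξ, -, hξ⟩ := exists_hasDerivAt_eq_slope (fun s => F s 0) (fun s => deriv F s 0) hL
      (fun s _ => ((hcoord _ _ _ (ha1 s) 0).continuousAt).continuousWithinAt)
      (fun s _ => hcoord _ _ _ (ha1 s) 0)
    have h2 : deriv F ξ 0 = 0 := by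
      have : deriv F ξ 0 = (F L 0 - F 0 0) / (L - 0) := hξ
      rw [this, hper]; simp
    intro s
    rw [hk s ξ, h2]
  have hF0' := hconst 0 hV0
  intro s s'
  rw [← hFc, ← hFc]
  congr 1
  exact R_ext (hF0' s s') (hF1 s s') (hF2 s s')

end Pool.Agent.H890R2.Sol
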