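import Pool.Agent.H890R2.Sol.Act

set_option autoImplicit false
set_option linter.unusedSectionVars false
open scoped Manifold ContDiff Topology
open Set Real

/-!
The closed Lorentzian Sol-manifold: the quotient of `ℝ³` with the metric
`2 e^{-t} dx dt + e^{2t} dy²`.
-/

namespace Pool.Agent.H890R2.Sol

open Pool.Agent.NKM (gr gc gr_sq gc_sq gr_add_gc gr_mul_gc one_lt_gr gr_lt_two gc_neg e1 e2
  e1_apply e2_apply gr_pos gr_ne gc_ne e1_injective e2_injective)
open Pool.Agent.Helper107.LC

/-- The closed 3-manifold: the quotient of `ℝ³` by the lattice. -/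
def SolM : Type := MulAction.orbitRel.Quotient Gam (R 2)

instance : TopologicalSpace SolM :=
  inferInstanceAs (TopologicalSpace (MulAction.orbitRel.Quotient Gam (R 2)))

/-- the projection -/
noncomputable def pr : R 2 → SolM := Quotient.mk (MulAction.orbitRel Gam (R 2))

lemma pr_cov : IsQuotientCoveringMap pr Gam :=
  isQuotientCoveringMap_quotientMk_of_properlyDiscontinuousSMul

instance : T2Space SolM :=
  inferInstanceAs (T2Space (Quotient (MulAction.orbitRel Gam (R 2))))

lemma pr_lh : IsLocalHomeomorph pr := pr_cov.isCoveringMap.isLocalHomeomorph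

/-- the charts are the local inverses of the projection -/
noncomputable instance : ChartedSpace (R 2) SolM where
  atlas := {e | ∃ x : R 2, e = pr_lh.localInverseAt x}
  chartAt y := pr_lh.localInverseAt (Function.surjInv pr_cov.surjective y)
  mem_chart_source y := by
    have h := pr_lh.apply_self_mem_localInverseAt_source
      (x := Function.surjInv pr_cov.surjective y)
    rwa [Function.surjInv_eq pr_cov.surjective y] at h
  chart_mem_atlas y := ⟨_, rfl⟩

lemma mem_atlas {e : OpenPartialHomeomorph SolM (R 2)} :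
    e ∈ atlas (R 2) SolM ↔ ∃ x : R 2, e = pr_lh.localInverseAt x := Iff.rfl

/-- local description of local inverses -/
lemma localInverse_eq_smul (x v : R 2) (hv : pr v ∈ (pr_lh.localInverseAt x).source) :
    ∃ g : Gam, ∀ᶠ u in 𝓝 v, pr_lh.localInverseAt x (pr u) = g • u := by
  set w := pr_lh.localInverseAt x (pr v) with hw
  have hqw : pr w = pr v := pr_lh.apply_localInverseAt_of_mem hv
  obtain ⟨g, hg⟩ := pr_cov.apply_eq_iff_mem_orbit.mp hqw
  refine ⟨g, ?_⟩
  have hwt : w ∈ (pr_lh.localInverseAt x).target := (pr_lh.localInverseAt x).map_source hv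
  have h1 : ∀ᶠ u in 𝓝 v, g • u ∈ (pr_lh.localInverseAt x).target := by
    have hc : Continuous fun u : R 2 => g • u := continuous_const_smul g
    have : g • v ∈ (pr_lh.localInverseAt x).target := by
      have : g • v = w := hg
      rw [this]; exact hwt
    exact hc.continuousAt.preimage_mem_nhds ((pr_lh.localInverseAt x).open_target.mem_nhds this)
  have h2 : ∀ᶠ u in 𝓝 v, pr u ∈ (pr_lh.localInverseAt x).source :=
    pr_cov.continuous.continuousAt.preimage_mem_nhds
      ((pr_lh.localInverseAt x).open_source.mem_nhds hv)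
  filter_upwards [h1, h2] with u hu1 hu2
  apply pr_lh.injOn_localInverseAt_target (x := x)
  · exact (pr_lh.localInverseAt x).map_source hu2
  · exact hu1
  · rw [pr_lh.apply_localInverseAt_of_mem hu2]
    exact (pr_cov.map_smul g).symm

instance : IsManifold (𝓡 3) ∞ SolM := by
  apply isManifold_of_contDiffOn
  rintro e e' ⟨x, rfl⟩ ⟨x', rfl⟩
  intro v hv
  simp only [modelWithCornersSelf_coe, modelWithCornersSelf_coe_symm, preimage_id_eq, id_eq,
    range_id, inter_univ, OpenPartialHomeomorph.coe_trans, Function.comp_def,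
    IsLocalHomeomorph.localInverseAt_symm] at hv ⊢
  rw [OpenPartialHomeomorph.trans_source] at hv
  have hv2 : pr v ∈ (pr_lh.localInverseAt x').source := by
    have := hv.2
    rwa [mem_preimage, pr_lh.localInverseAt_symm] at this
  obtain ⟨g, hg⟩ := localInverse_eq_smul x' v hv2
  have h1 : ContDiffAt ℝ ∞ (fun u => pr_lh.localInverseAt x' (pr u)) v :=
    (contDiff_smul g).contDiffAt.congr_of_eventuallyEq hg
  exact h1.contDiffWithinAt

instance : Nonempty SolM := ⟨pr 0⟩

instance : ConnectedSpace SolM := by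
  have : ConnectedSpace (R 2) := inferInstance
  exact pr_cov.surjective.connectedSpace pr_cov.continuous

/-! ### compactness -/

/-- first lattice coordinate of the point of `ℝ²` with the two embeddings `x, y` -/
noncomputable def ca (x y : ℝ) : ℝ := x - (x - y) / (gr - gc) * gr
/-- second lattice coordinate -/
noncomputable def cb (x y : ℝ) : ℝ := (x - y) / (gr - gc)

lemma gr_sub_gc_pos : 0 < gr - gc := by linarith [gr_pos, gc_neg]

lemma ca_cb_1 (x y : ℝ) : ca x y + cb x y * gr = x := by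
  rw [ca, cb]; ring
lemma ca_cb_2 (x y : ℝ) : ca x y + cb x y * gc = y := by
  rw [ca, cb]
  have h := gr_sub_gc_pos.ne'
  field_simp
  ring

lemma ca_add (n : ℤ × ℤ) (x y : ℝ) : ca (x + e1 n) (y + e2 n) = ca x y + n.1 := by
  rw [ca, ca, e1_apply, e2_apply]
  have h := gr_sub_gc_pos.ne'
  field_simp
  ring

lemma cb_add (n : ℤ × ℤ) (x y : ℝ) : cb (x + e1 n) (y + e2 n) = cb x y + n.2 := by
  rw [cb, cb, e1_apply, e2_apply]
  have h := gr_sub_gc_pos.ne'
  field_simp
  ring

lemma floor_mem (x : ℝ) : x + (-⌊x⌋ : ℤ) ∈ Icc (0 : ℝ) 1 := by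
  push_cast
  exact ⟨by linarith [Int.floor_le x], by linarith [Int.lt_floor_add_one x]⟩

lemma fract_mul {x c : ℝ} (hc : 0 < c) : x + (-⌊x / c⌋ : ℤ) * c ∈ Icc 0 c := by
  have h1 := Int.floor_le (x / c)
  have h2 := Int.lt_floor_add_one (x / c)
  push_cast
  constructor
  · have : ⌊x / c⌋ * c ≤ x := by
      rw [← le_div_iff₀ hc]; exact h1
    linarith
  · have : x < (⌊x / c⌋ + 1) * c := by
      rw [← div_lt_iff₀ hc]; exact h2
    linarith

lemma exists_dom (p : R 2) : ∃ g : Gam, (g • p) 2 ∈ Icc 0 tau ∧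
    ca ((g • p) 0) ((g • p) 1) ∈ Icc (0 : ℝ) 1 ∧ cb ((g • p) 0) ((g • p) 1) ∈ Icc (0 : ℝ) 1 := by
  set m : ℤ := -⌊p 2 / tau⌋ with hm
  set x := Real.exp (m * tau) * p 0 with hx
  set y := Real.exp (-(m * tau)) * p 1 with hy
  refine ⟨⟨(-⌊ca x y⌋, -⌊cb x y⌋), m⟩, ?_, ?_, ?_⟩
  · rw [smul_2]
    exact fract_mul tau_pos
  · rw [smul_0, smul_1, ← hx, ← hy, ca_add]
    exact floor_mem _
  · rw [smul_0, smul_1, ← hx, ← hy, cb_add]
    exact floor_mem _

instance : CompactSpace SolM := by
  constructor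
  set K : Set (ℝ × ℝ × ℝ) := Icc 0 tau ×ˢ Icc 0 1 ×ˢ Icc 0 1 with hK
  set φ : ℝ × ℝ × ℝ → R 2 := fun x => (EuclideanSpace.equiv (Fin 3) ℝ).symm
    ![x.2.1 + x.2.2 * gr, x.2.1 + x.2.2 * gc, x.1] with hφ
  have hφc : Continuous φ := by
    rw [hφ]
    refine (EuclideanSpace.equiv (Fin 3) ℝ).symm.continuous.comp (continuous_pi fun i => ?_)
    fin_cases i <;> simp <;> fun_prop
  have hKc : IsCompact K := isCompact_Icc.prod (isCompact_Icc.prod isCompact_Icc)
  have himg : (univ : Set SolM) = pr '' (φ '' K) := by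
    apply Subset.antisymm
    · intro y _
      obtain ⟨p, rfl⟩ := pr_cov.surjective y
      obtain ⟨g, h1, h2, h3⟩ := exists_dom p
      refine ⟨g • p, ?_, pr_cov.map_smul g⟩
      set p' := g • p with hp'
      refine ⟨(p' 2, ca (p' 0) (p' 1), cb (p' 0) (p' 1)), ⟨h1, h2, h3⟩, ?_⟩
      apply R_ext
      · simp [hφ, ca_cb_1]
      · simp [hφ, ca_cb_2]
      · simp [hφ]
    · exact subset_univ _
  rw [himg]
  exact (hKc.image hφc).image pr_cov.continuous

/-! ### the metric -/

/-- the metric `2 e^{-t} dx dt + e^{2t} dy²` in the coordinates `(x, y, t)` -/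
noncomputable def g0 (p u v : R 2) : ℝ :=
  Real.exp (-(p 2)) * (u 0 * v 2 + u 2 * v 0) + Real.exp (2 * p 2) * (u 1 * v 1)

lemma g0_smul (g : Gam) (p u v : R 2) :
    g0 (g • p) (lin (g.m * tau) u) (lin (g.m * tau) v) = g0 p u v := by
  unfold g0
  rw [smul_2]
  simp only [lin_0, lin_1, lin_2]
  set a := (g.m : ℝ) * tau
  have h1 : Real.exp (-(p 2 + a)) * Real.exp a = Real.exp (-(p 2)) := by
    rw [← Real.exp_add]; ring_nf
  have h2 : Real.exp (2 * (p 2 + a)) * (Real.exp (-a) * Real.exp (-a)) = Real.exp (2 * p 2) := by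
    rw [← Real.exp_add, ← Real.exp_add]; ring_nf
  rw [← h1, ← h2]
  ring

lemma contDiff_coord (i : Fin 3) : ContDiff ℝ ∞ fun p : R 2 => p i :=
  contDiff_euclidean.1 contDiff_id i

lemma g0_smooth (u v : R 2) : ContDiff ℝ ∞ fun p => g0 p u v := by
  unfold g0
  have h := contDiff_coord 2
  exact ((h.neg.exp).mul contDiff_const).add (((contDiff_const.mul h).exp).mul contDiff_const)

lemma g0_sym (p : R 2) : IsSymBil (g0 p) := by
  refine ⟨fun v => ⟨fun u u' => ?_, fun c u => ?_⟩, fun u v => ?_⟩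
  · simp [g0]; ring
  · simp [g0]; ring
  · simp [g0]; ring

/-- an orthonormal frame -/
noncomputable def frame (p : R 2) : Fin 3 → R 2 :=
  ![(EuclideanSpace.equiv (Fin 3) ℝ).symm ![-(Real.exp (p 2) / 2), 0, 1],
    (EuclideanSpace.equiv (Fin 3) ℝ).symm ![Real.exp (p 2) / 2, 0, 1],
    (EuclideanSpace.equiv (Fin 3) ℝ).symm ![0, Real.exp (-(p 2)), 0]]

lemma g0_lor (p : R 2) : IsLor (g0 p) := by
  refine ⟨frame p, ?_⟩
  have h1 : Real.exp (-(p 2)) * Real.exp (p 2) = 1 := by
    rw [← Real.exp_add]; simp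
  have h2 : Real.exp (2 * p 2) * (Real.exp (-(p 2)) * Real.exp (-(p 2))) = 1 := by
    rw [← Real.exp_add, ← Real.exp_add]; ring_nf; simp
  intro i j
  fin_cases i <;> fin_cases j <;> simp [frame, g0]
  all_goals first
    | linear_combination (-1 : ℝ) * h1
    | linear_combination (1 : ℝ) * h1
    | linear_combination (1 : ℝ) * h2

lemma DV_smul (g : Gam) (y a : R 2) {F : R 2 → R 2} (hF : ∀ᶠ u in 𝓝 y, F u = g • u) :
    DV F y a = lin (g.m * tau) a := by
  have h1 : HasFDerivAt F (lin (g.m * tau)) y := (hasFDerivAt_smul g y).congr_of_eventuallyEq hF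
  have h2 : HasDerivAt (fun s : ℝ => y + s • a) a 0 := by
    simpa using ((hasDerivAt_id (0 : ℝ)).smul_const a).const_add y
  have h3 : HasFDerivAt F (lin (g.m * tau)) (y + (0 : ℝ) • a) := by simpa using h1
  exact (h3.comp_hasDerivAt (0 : ℝ) h2).deriv

/-- The Lorentzian metric of the closed manifold. -/
noncomputable def solMetric : LorentzMetric 2 SolM where
  G _ := g0
  metric e _ := ⟨fun u v => (g0_smooth u v).contDiffOn, fun y _ => ⟨g0_sym y, g0_lor y⟩⟩
  compat := by
    rintro e ⟨x, rfl⟩ e' ⟨x', rfl⟩ q ⟨hq, hq'⟩ u v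
    set y := pr_lh.localInverseAt x q with hy
    have hpy : pr y = q := pr_lh.apply_localInverseAt_of_mem hq
    obtain ⟨g, hg⟩ := localInverse_eq_smul x' y (by rw [hpy]; exact hq')
    have hF : ∀ᶠ u in 𝓝 y, (pr_lh.localInverseAt x' ∘ (pr_lh.localInverseAt x).symm) u = g • u := by
      filter_upwards [hg] with u hu
      rw [Function.comp_apply, pr_lh.localInverseAt_symm]
      exact hu
    rw [DV_smul g y u hF, DV_smul g y v hF, ← hpy, hg.self_of_nhds, g0_smul]

end Pool.Agent.H890R2.Sol
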